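import Pool.Agent.H2.ED.Targets
import Pool.Agent.H51.TD.CTD
import Pool.Agent.H18.HX.All
import Pool.Agent.H18.HIT.All

/-! VDM. The dimension of a closed subset which is not a hypersurface. -/

set_option autoImplicit false

open MvPolynomial
open Pool.Agent.H18.HIT Pool.Agent.H18.HX Pool.Agent.H18.VZ
open Pool.Agent.H2.ED

namespace Pool.Agent.H45.ED

section ctd

variable {k Ω : Type} [Field k] [Field Ω] [Algebra k Ω] {n : ℕ}

theorem core0 (S S' : Po (n + 1) k) (ξ : Fin (n + 1) → Ω)
    (hS : S ≠ 0) (hrel : IsRelPrime S S') (h1 : aeval ξ S = 0) (h2 : aeval ξ S' = 0)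
    (hind : AlgebraicIndependent k (fun i : Fin n => ξ i.succ)) : False := by
  set j : MvPolynomial (Fin n) k →+* Ω :=
    (aeval (fun i : Fin n => ξ i.succ) : MvPolynomial (Fin n) k →ₐ[k] Ω).toRingHom with hjdef
  have hj : Function.Injective j := hind
  have hev : ∀ q : Po (n + 1) k, (finSuccEquiv k n q).eval₂ j (ξ 0) = aeval ξ q := by
    intro q
    have h : (Polynomial.eval₂RingHom j (ξ 0)).comp (finSuccEquiv k n).toRingEquiv.toRingHom =
        (aeval ξ : Po (n + 1) k →ₐ[k] Ω).toRingHom := by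
      apply MvPolynomial.ringHom_ext
      · intro a
        have : finSuccEquiv k n (C a) = Polynomial.C (C a) := by
          simp [finSuccEquiv_apply]
        simp only [RingHom.comp_apply]
        show (finSuccEquiv k n (C a)).eval₂ j (ξ 0) = aeval ξ (C a)
        rw [this, Polynomial.eval₂_C, hjdef]
        simp
      · intro i
        show (finSuccEquiv k n (X i)).eval₂ j (ξ 0) = aeval ξ (X i)
        refine Fin.cases ?_ ?_ i
        · rw [finSuccEquiv_X_zero]
          simp
        · intro i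
          rw [finSuccEquiv_X_succ, Polynomial.eval₂_C, hjdef]
          simp
    exact congrArg (fun φ : Po (n + 1) k →+* Ω => φ q) h
  refine Pool.Agent.H51.TD.gauss_core j hj (ξ 0) (finSuccEquiv k n S) (finSuccEquiv k n S')
    ?_ ?_ ?_ ?_
  · intro h
    exact hS ((finSuccEquiv k n).injective (by rw [h, map_zero]))
  · exact Pool.Agent.H51.TD.relprime_equiv (finSuccEquiv k n).toRingEquiv hrel
  · rw [hev, h1]
  · rw [hev, h2]

theorem core (S S' : Po (n + 1) k) (ξ : Fin (n + 1) → Ω)
    (hS : S ≠ 0) (hrel : IsRelPrime S S') (h1 : aeval ξ S = 0) (h2 : aeval ξ S' = 0)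
    (σ : Fin n → Fin (n + 1)) (hσ : Function.Injective σ)
    (hind : AlgebraicIndependent k (fun i : Fin n => ξ (σ i))) : False := by
  obtain ⟨c, hc⟩ : ∃ c, c ∉ Set.range σ := by
    by_contra h
    push Not at h
    have h3 : Function.Surjective σ := h
    have := Fintype.card_le_of_surjective σ h3
    rw [Fintype.card_fin, Fintype.card_fin] at this
    omega
  have hπi : Function.Injective (Fin.cons c σ : Fin (n + 1) → Fin (n + 1)) :=
    Fin.cons_injective_iff.2 ⟨hc, hσ⟩
  have hπb : Function.Bijective (Fin.cons c σ : Fin (n + 1) → Fin (n + 1)) :=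
    Finite.injective_iff_bijective.1 hπi
  set π : Fin (n + 1) ≃ Fin (n + 1) := Equiv.ofBijective _ hπb with hπ
  have hπs : ∀ i : Fin n, π i.succ = σ i := by
    intro i
    simp [hπ]
  have hev : ∀ q : Po (n + 1) k, aeval (fun i => ξ (π i)) (renameEquiv k π.symm q) =
      aeval ξ q := by
    intro q
    rw [renameEquiv_apply, aeval_rename]
    congr 1
    congr 1
    funext i
    simp
  refine core0 (renameEquiv k π.symm S) (renameEquiv k π.symm S') (fun i => ξ (π i))
    ?_ ?_ ?_ ?_ ?_
  · intro h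
    exact hS ((renameEquiv k π.symm).injective (by rw [h, map_zero]))
  · exact Pool.Agent.H51.TD.relprime_equiv (renameEquiv k π.symm).toRingEquiv hrel
  · rw [hev, h1]
  · rw [hev, h2]
  · have : (fun i : Fin n => ξ (π i.succ)) = fun i : Fin n => ξ (σ i) := by
      funext i
      rw [hπs]
    rw [this]
    exact hind

theorem ctdN (S S' : Po (n + 1) k) (ξ : Fin (n + 1) → Ω) (hS : S ≠ 0)
    (hrel : IsRelPrime S S') (h1 : aeval ξ S = 0) (h2 : aeval ξ S' = 0) :
    Algebra.trdeg k (IntermediateField.adjoin k (Set.range ξ)) < n := by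
  set E := IntermediateField.adjoin k (Set.range ξ) with hE
  set η : Fin (n + 1) → E := fun i => ⟨ξ i, IntermediateField.subset_adjoin k _ ⟨i, rfl⟩⟩
    with hη
  have hηv : ∀ i, (η i : Ω) = ξ i := fun i => rfl
  have := Pool.Agent.H51.TD.alg_adjoin ξ η hηv
  obtain ⟨t, ht, hB⟩ := exists_isTranscendenceBasis_subset (R := k) (A := E) (Set.range η)
  rw [← hB.cardinalMk_eq_trdeg]
  by_contra hlt
  rw [not_lt] at hlt
  have h3 : Cardinal.mk (Fin n) ≤ Cardinal.mk t := by
    simpa using hlt
  obtain ⟨em⟩ := (Cardinal.le_def _ _).1 h3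
  have hg : ∀ x : t, ∃ i, η i = x := fun x => ht x.2
  choose g hg using hg
  have hginj : Function.Injective g := by
    intro x y hxy
    apply Subtype.ext
    rw [← hg x, ← hg y, hxy]
  refine core S S' ξ hS hrel h1 h2 (fun i => g (em i)) (hginj.comp em.injective) ?_
  have h6 : AlgebraicIndependent k (fun i : Fin n => ((em i : t) : E)) :=
    hB.1.comp em em.injective
  have h7 : AlgebraicIndependent k (fun i : Fin n => (((em i : t) : E) : Ω)) :=
    h6.map' (f := IntermediateField.val E) (IntermediateField.val E).injective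
  have h8 : (fun i : Fin n => ξ (g (em i))) = fun i : Fin n => (((em i : t) : E) : Ω) := by
    funext i
    rw [← hηv, hg]
  rw [h8]
  exact h7

end ctd

/-- two relatively prime elements -/
theorem avxN {k : Type} [Field k] {N r : ℕ} {P : Po (N + 1) k} {V : Ideal (Po (N + 1) k)}
    (hP : Hyp P r) (hV : V.IsPrime) (hPV : P ∈ V) (hex : ∃ c ∈ V, ¬ P ∣ c)
    (hno : ¬ ∃ h, Pdv P V h) :
    ∃ S S' : Po N k, up S ∈ V ∧ up S' ∈ V ∧ S ≠ 0 ∧ S' ≠ 0 ∧ IsRelPrime S S' := by
  obtain ⟨W, hW⟩ : ∃ W : Ideal (Po N k),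
      W = V.comap (rename Fin.succ : Po N k →ₐ[k] Po (N + 1) k) := ⟨_, rfl⟩
  have hmem : ∀ c : Po N k, c ∈ W ↔ up c ∈ V := by
    intro c
    rw [hW, Ideal.mem_comap]
    rfl
  have hWp : W.IsPrime := by
    rw [hW]
    exact Ideal.comap_isPrime _ _
  have hW0 : W ≠ ⊥ := by
    intro h0
    obtain ⟨c, hc, hPc⟩ := hex
    obtain ⟨c', A, hc', hdvd⟩ := Pool.Agent.H18.HX.All.nrx N k P c hP.irr hP.mon hPc
    apply hc'
    have h1 : c' ∈ W := by
      rw [hmem]
      have h2 : up c' = (up c' - c * A) + c * A := by ring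
      rw [h2]
      exact V.add_mem (V.mem_of_dvd hdvd hPV) (V.mul_mem_right _ hc)
    rw [h0] at h1
    exact h1
  by_cases hcase : ∀ w : Po N k, Irreducible w → ∃ c ∈ W, ¬ w ∣ c
  · obtain ⟨S, hS, S', hS', hS0, hS0', hrel⟩ :=
      Pool.Agent.H18.HIT.All.avo N k W hW0 hcase
    exact ⟨S, S', (hmem S).1 hS, (hmem S').1 hS', hS0, hS0', hrel⟩
  · exfalso
    push Not at hcase
    obtain ⟨w, hw, hdvd⟩ := hcase
    obtain ⟨Y, hY, hYp⟩ := hWp.exists_mem_prime_of_ne_bot hW0
    have hwW : w ∈ W := by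
      have h1 : Associated w Y := hw.associated_of_dvd hYp.irreducible (hdvd Y hY)
      obtain ⟨u, hu⟩ := h1.symm
      rw [← hu]
      exact Ideal.mul_mem_right _ _ hY
    exact hno ⟨w, hV, hPV, hw, fun c => by
      rw [← hmem]
      refine ⟨hdvd c, ?_⟩
      rintro ⟨d, rfl⟩
      exact Ideal.mul_mem_right _ _ hwW⟩

theorem aeval_smul_hom {k Ω : Type} [Field k] [Field Ω] [Algebra k Ω] {L s : ℕ} {q : Po L k}
    (hq : q.IsHomogeneous s) (t : Ω) (y : Fin L → Ω) :
    aeval (fun i => t * y i) q = t ^ s * aeval y q := by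
  rw [aeval_def, aeval_def, eval₂_eq', eval₂_eq', Finset.mul_sum]
  apply Finset.sum_congr rfl
  intro m hm
  have h1 : ∑ i, m i = s := by
    have h2 : m.degree = s := by
      by_contra hcon
      exact (mem_support_iff.mp hm) (hq.coeff_eq_zero hcon)
    rw [Finsupp.degree_eq_sum] at h2
    exact h2
  have h3 : ∏ i, (t * y i) ^ m i = t ^ s * ∏ i, y i ^ m i := by
    rw [← h1, ← Finset.prod_pow_eq_pow_sum, ← Finset.prod_mul_distrib]
    exact Finset.prod_congr rfl fun i _ => mul_pow _ _ _
  rw [h3]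
  ring

/-- the elements of `V` vanish at the generic point of the cone -/
theorem cone_zero {k κ Ω : Type} [Field k] [Field κ] [Field Ω] [Algebra k κ] [Algebra κ Ω]
    [Algebra k Ω] [IsScalarTower k κ Ω] (t : Ω) {ν r : ℕ} {V : Ideal (Po (ν + 2) k)}
    {η : Fin (ν + 2) → κ} (hH : Hmi V) (hG : Gv V r η) (c : Po (ν + 2) k) (hc : c ∈ V) :
    aeval (fun i => t * algebraMap κ Ω (η i)) c = 0 := by
  rw [← sum_homogeneousComponent c, map_sum]
  refine Finset.sum_eq_zero fun s _ => ?_
  have h1 : (homogeneousComponent s c).IsHomogeneous s := homogeneousComponent_isHomogeneous s c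
  have h2 : aeval (fun i => algebraMap κ Ω (η i)) (homogeneousComponent s c) =
      algebraMap κ Ω (aeval η (homogeneousComponent s c)) :=
    aeval_algebraMap_apply Ω η (homogeneousComponent s c)
  rw [aeval_smul_hom h1, h2, (hG.iff s (homogeneousComponent s c) h1).2 (hH c hc s), map_zero,
    mul_zero]

/-- `κ` is algebraic over the subring generated by the last coordinates -/
theorem alg_last {k κ : Type} [Field k] [Field κ] [Algebra k κ] {ν r r₀ : ℕ}
    {P : Po (ν + 2) k} {V : Ideal (Po (ν + 2) k)} {η : Fin (ν + 2) → κ} (hP : Hyp P r₀)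
    (hPV : P ∈ V) (hG : Gv V r η) :
    Algebra.IsAlgebraic (Algebra.adjoin k (Set.range fun i : Fin (ν + 1) => η i.succ)) κ := by
  set A := Algebra.adjoin k (Set.range fun i : Fin (ν + 1) => η i.succ) with hA
  have hmem : ∀ i : Fin (ν + 1), η i.succ ∈ A := fun i => Algebra.subset_adjoin ⟨i, rfl⟩
  have hs : ∀ i : Fin (ν + 1), IsAlgebraic A (η i.succ) := fun i =>
    isAlgebraic_algebraMap (⟨η i.succ, hmem i⟩ : A)
  have h0 : IsAlgebraic A (η 0) := by
    apply IsIntegral.isAlgebraic
    set y : Fin (ν + 1) → A := fun i => ⟨η i.succ, hmem i⟩ with hy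
    refine ⟨(finSuccEquiv k (ν + 1) P).map
      (aeval y : Po (ν + 1) k →ₐ[k] A).toRingHom, hP.mon.map _, ?_⟩
    rw [Polynomial.eval₂_map]
    have h1 : ∀ q : Po (ν + 2) k, (finSuccEquiv k (ν + 1) q).eval₂
        ((algebraMap A κ).comp (aeval y : Po (ν + 1) k →ₐ[k] A).toRingHom) (η 0) =
        aeval η q := by
      intro q
      have h : (Polynomial.eval₂RingHom
          ((algebraMap A κ).comp (aeval y : Po (ν + 1) k →ₐ[k] A).toRingHom) (η 0)).comp
          (finSuccEquiv k (ν + 1)).toRingEquiv.toRingHom =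
          (aeval η : Po (ν + 2) k →ₐ[k] κ).toRingHom := by
        apply MvPolynomial.ringHom_ext
        · intro a
          have : finSuccEquiv k (ν + 1) (C a) = Polynomial.C (C a) := by
            simp [finSuccEquiv_apply]
          simp only [RingHom.comp_apply]
          show (finSuccEquiv k (ν + 1) (C a)).eval₂ _ (η 0) = aeval η (C a)
          rw [this, Polynomial.eval₂_C]
          change algebraMap A κ (aeval y (C a)) = aeval η (C a)
          rw [aeval_C, aeval_C]
          exact (IsScalarTower.algebraMap_apply k A κ a).symm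
        · intro i
          show (finSuccEquiv k (ν + 1) (X i)).eval₂ _ (η 0) = aeval η (X i)
          refine Fin.cases ?_ ?_ i
          · rw [finSuccEquiv_X_zero]
            simp
          · intro i
            rw [finSuccEquiv_X_succ, Polynomial.eval₂_C, aeval_X]
            change algebraMap A κ (aeval y (X i)) = η i.succ
            rw [aeval_X]
            rfl
      exact congrArg (fun φ : Po (ν + 2) k →+* κ => φ q) h
    rw [h1]
    exact (hG.iff r₀ P hP.hom).2 hPV
  have hall : ∀ i, IsAlgebraic A (η i) := by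
    intro i
    refine Fin.cases h0 (fun j => hs j) i
  constructor
  intro x
  have hx : x ∈ IntermediateField.adjoin k (Set.range η) := by
    rw [hG.top]
    trivial
  induction hx using IntermediateField.adjoin_induction with
  | mem x hx =>
    obtain ⟨i, rfl⟩ := hx
    exact hall i
  | algebraMap a =>
    have h2 : algebraMap k κ a = algebraMap A κ (algebraMap k A a) :=
      IsScalarTower.algebraMap_apply k A κ a
    rw [h2]
    exact isAlgebraic_algebraMap _
  | add x y _ _ hx hy => exact hx.add hy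
  | inv x _ hx => exact hx.inv
  | mul x y _ _ hx hy => exact hx.mul hy

theorem main {k κ Ω : Type} [Field k] [Field κ] [Field Ω] [Algebra k κ] [Algebra κ Ω]
    [Algebra k Ω] [IsScalarTower k κ Ω] (t : Ω) (ht : Transcendental κ t) {ν r r₀ : ℕ}
    {P : Po (ν + 2) k} {V : Ideal (Po (ν + 2) k)} {η : Fin (ν + 2) → κ} (hP : Hyp P r₀)
    (hPV : P ∈ V) (hH : Hmi V) (hG : Gv V r η) (S S' : Po (ν + 1) k) (hS : up S ∈ V)
    (hS' : up S' ∈ V) (hS0 : S ≠ 0) (hrel : IsRelPrime S S') : r + 2 ≤ ν := by
  set ζ : Fin (ν + 1) → Ω := fun i => t * algebraMap κ Ω (η i.succ) with hζ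
  have hz : ∀ q : Po (ν + 1) k, up q ∈ V → aeval ζ q = 0 := by
    intro q hq
    have h1 := cone_zero t hH hG (up q) hq
    rw [up, aeval_rename] at h1
    exact h1
  have hlt := ctdN S S' ζ hS0 hrel (hz S hS) (hz S' hS')
  set E := IntermediateField.adjoin k (Set.range ζ) with hE
  have hζE : ∀ i, ζ i ∈ E := fun i => IntermediateField.subset_adjoin k _ ⟨i, rfl⟩
  have htE : t ∈ E := by
    have h1 : ζ 0 = t := by
      change t * algebraMap κ Ω (η 1) = t
      rw [hG.one, map_one, mul_one]
    rw [← h1]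
    exact hζE 0
  have ht0 : t ≠ 0 := by
    intro h
    apply ht
    rw [h]
    exact isAlgebraic_zero
  have hηE : ∀ i : Fin (ν + 1), algebraMap κ Ω (η i.succ) ∈ E := by
    intro i
    have h1 : algebraMap κ Ω (η i.succ) = ζ i / t := by
      rw [hζ]
      field_simp
    rw [h1]
    exact E.div_mem (hζE i) htE
  have := alg_last hP hPV hG
  obtain ⟨T, hT, hB⟩ := exists_isTranscendenceBasis_subset (R := k) (A := κ)
    (Set.range fun i : Fin (ν + 1) => η i.succ)
  have hcard : Cardinal.mk T = r := by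
    rw [hB.cardinalMk_eq_trdeg]
    exact hG.trd
  have hy : AlgebraicIndependent κ (fun _ : Unit => t) :=
    algebraicIndependent_unique_type_iff.2 ht
  have hsum : AlgebraicIndependent k
      (Sum.elim (fun _ : Unit => t) (algebraMap κ Ω ∘ ((↑) : T → κ))) := hB.1.sumElim_comp hy
  have hmem : ∀ o : Unit ⊕ T, Sum.elim (fun _ : Unit => t) (algebraMap κ Ω ∘ ((↑) : T → κ)) o ∈
      E := by
    rintro (_ | x)
    · exact htE
    · obtain ⟨i, hi⟩ := hT x.2
      change algebraMap κ Ω (x : κ) ∈ E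
      rw [← hi]
      exact hηE i
  have hind : AlgebraicIndependent k (fun o : Unit ⊕ T => (⟨_, hmem o⟩ : E)) := by
    apply AlgebraicIndependent.of_comp (IntermediateField.val E)
    exact hsum
  have hle := hind.cardinalMk_le_trdeg
  have h1 : Cardinal.mk (Unit ⊕ T) = ((r + 1 : ℕ) : Cardinal) := by
    rw [Cardinal.mk_sum, hcard]
    simp [add_comm]
  rw [h1] at hle
  have h2 : ((r + 1 : ℕ) : Cardinal) < (ν : Cardinal) := lt_of_le_of_lt hle hlt
  have h3 : r + 1 < ν := by exact_mod_cast h2
  omega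

theorem pf_VDM : Pool.Agent.H2.ED.T_VDM := by
  intro ν r₀ r k κ _ _ _ P V η hP hV hH hPV hex hno hG
  obtain ⟨S, S', hS, hS', hS0, -, hrel⟩ := avxN hP hV hPV hex hno
  exact main (Ω := RatFunc κ) RatFunc.X RatFunc.transcendental_X hP hPV hH hG S S' hS hS' hS0
    hrel

end Pool.Agent.H45.ED
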